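import Pool.Agent.H728Z.RC.Spec

/-! Quasi-isometries: symmetry, transitivity, transfer, and the doubling construction. -/

set_option autoImplicit false

namespace Pool.Agent.H728Z.RC

namespace DJ

section basic

variable {V V' V'' : Type} [DecidableEq V] [DecidableEq V'] [DecidableEq V'']
variable {R : Set (FreeGroup V)} {R' : Set (FreeGroup V')} {R'' : Set (FreeGroup V'')}

theorem sh_mono {g : PresentedGroup R} {N M : ℕ} (h : Sh R g N) (hNM : N ≤ M) : Sh R g M := by
  obtain ⟨w, h1, h2⟩ := h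
  exact ⟨w, h1, h2.trans hNM⟩

theorem sh_mul {g h : PresentedGroup R} {N M : ℕ} (hg : Sh R g N) (hh : Sh R h M) :
    Sh R (g * h) (N + M) := by
  obtain ⟨w, h1, h2⟩ := hg
  obtain ⟨u, h3, h4⟩ := hh
  refine ⟨w * u, by rw [map_mul, h1, h3], ?_⟩
  exact (FreeGroup.norm_mul_le w u).trans (Nat.add_le_add h2 h4)

theorem sh_inv {g : PresentedGroup R} {N : ℕ} (hg : Sh R g N) : Sh R g⁻¹ N := by
  obtain ⟨w, h1, h2⟩ := hg
  refine ⟨w⁻¹, by rw [map_inv, h1], ?_⟩
  have : FreeGroup.norm w⁻¹ = FreeGroup.norm w := FreeGroup.norm_inv_eq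
  exact this.le.trans h2

theorem sh_one : Sh R 1 0 := ⟨1, map_one _, by simp⟩

theorem sh_of (s : V) : Sh R (PresentedGroup.of s) 1 :=
  ⟨FreeGroup.of s, rfl, by simp⟩

omit [DecidableEq V] in
theorem mk_cons (s : V) (b : Bool) (L : List (V × Bool)) :
    PresentedGroup.mk R (FreeGroup.mk ((s, b) :: L)) =
      (if b then PresentedGroup.of s else (PresentedGroup.of s)⁻¹) *
        PresentedGroup.mk R (FreeGroup.mk L) := by
  have h : FreeGroup.mk ((s, b) :: L) = FreeGroup.mk [(s, b)] * FreeGroup.mk L := by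
    rw [FreeGroup.mul_mk]; rfl
  rw [h, map_mul]
  congr 1
  cases b
  · have : (FreeGroup.mk [(s, false)] : FreeGroup V) = (FreeGroup.of s)⁻¹ := rfl
    rw [this, map_inv]
    rfl
  · rfl

omit [DecidableEq V] in
theorem ind_right (P : PresentedGroup R → Prop) (h1 : P 1)
    (h2 : ∀ x s, P x → P (x * PresentedGroup.of s))
    (h3 : ∀ x s, P x → P (x * (PresentedGroup.of s)⁻¹)) (g : PresentedGroup R) : P g := by
  have key : ∀ (L : List (V × Bool)) x, P x → P (x * PresentedGroup.mk R (FreeGroup.mk L)) := by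
    intro L
    induction L with
    | nil =>
      intro x hx
      have : (FreeGroup.mk [] : FreeGroup V) = 1 := rfl
      rw [this, map_one, mul_one]
      exact hx
    | cons a L ih =>
      intro x hx
      obtain ⟨s, b⟩ := a
      rw [mk_cons, ← mul_assoc]
      apply ih
      cases b
      · exact h3 x s hx
      · exact h2 x s hx
  obtain ⟨w, rfl⟩ := PresentedGroup.mk_surjective R g
  induction w using Quot.inductionOn with
  | _ L =>
    have := key L 1 h1
    rw [one_mul] at this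
    exact this

theorem lip (f : PresentedGroup R → PresentedGroup R')
    (hf : ∀ x s, Sh R' ((f x)⁻¹ * f (x * PresentedGroup.of s)) 1) :
    ∀ x y (N : ℕ), Sh R (x⁻¹ * y) N → Sh R' ((f x)⁻¹ * f y) N := by
  have key : ∀ (L : List (V × Bool)) x,
      Sh R' ((f x)⁻¹ * f (x * PresentedGroup.mk R (FreeGroup.mk L))) L.length := by
    intro L
    induction L with
    | nil =>
      intro x
      have : (FreeGroup.mk [] : FreeGroup V) = 1 := rfl
      rw [this, map_one, mul_one, inv_mul_cancel]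
      exact sh_one
    | cons a L ih =>
      intro x
      obtain ⟨s, b⟩ := a
      rw [mk_cons, ← mul_assoc]
      set t : PresentedGroup R :=
        if b then PresentedGroup.of s else (PresentedGroup.of s)⁻¹ with ht
      have h1 : Sh R' ((f x)⁻¹ * f (x * t)) 1 := by
        cases b
        · have := sh_inv (hf (x * t) s)
          have e : x * t * PresentedGroup.of s = x := by simp [ht]
          rw [e] at this
          simpa using this
        · exact hf x s
      have h2 := sh_mul h1 (ih (x * t))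
      have e : (f x)⁻¹ * f (x * t) * ((f (x * t))⁻¹ *
          f (x * t * PresentedGroup.mk R (FreeGroup.mk L))) =
          (f x)⁻¹ * f (x * t * PresentedGroup.mk R (FreeGroup.mk L)) := by group
      rw [e] at h2
      exact sh_mono h2 (by simp; omega)
  rintro x y N ⟨w, h1, h2⟩
  have := key w.toWord x
  rw [FreeGroup.mk_toWord, h1, mul_inv_cancel_left] at this
  exact sh_mono this h2

theorem qi_of_inv (f : PresentedGroup R → PresentedGroup R')
    (g : PresentedGroup R' → PresentedGroup R) (h1 : ∀ x, g (f x) = x) (h2 : ∀ z, f (g z) = z)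
    (hf : ∀ x s, Sh R' ((f x)⁻¹ * f (x * PresentedGroup.of s)) 1)
    (hg : ∀ x s, Sh R ((g x)⁻¹ * g (x * PresentedGroup.of s)) 1) : QI R R' := by
  refine ⟨f, 1, 0, fun x y N h => ?_, fun x y N h => ?_, fun z => ⟨g z, ?_⟩⟩
  · simpa using lip f hf x y N h
  · have := lip g hg _ _ N h
    rw [h1, h1] at this
    simpa using this
  · rw [h2, inv_mul_cancel]
    exact sh_one

theorem qi_symm (h : QI R R') : QI R' R := by
  obtain ⟨f, K, C, h1, h2, h3⟩ := h
  choose g hg using h3
  refine ⟨g, K, K * (2 * C) + 3 * C, fun z z' N h => ?_, fun z z' N h => ?_,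
    fun x => ⟨f x, ?_⟩⟩
  · have h4 := sh_mul (sh_mul (hg z) h) (sh_inv (hg z'))
    have e : (f (g z))⁻¹ * z * (z⁻¹ * z') * ((f (g z'))⁻¹ * z')⁻¹ = (f (g z))⁻¹ * f (g z') := by
      group
    rw [e] at h4
    refine sh_mono (h2 _ _ _ h4) ?_
    nlinarith [Nat.zero_le K, Nat.zero_le C, Nat.zero_le N]
  · have h4 := sh_mul (sh_mul (sh_inv (hg z)) (h1 _ _ _ h)) (hg z')
    have e : ((f (g z))⁻¹ * z)⁻¹ * ((f (g z))⁻¹ * f (g z')) * ((f (g z'))⁻¹ * z') = z⁻¹ * z' := by
      group
    rw [e] at h4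
    refine sh_mono h4 ?_
    nlinarith [Nat.zero_le (K * C)]
  · refine sh_mono (h2 _ _ _ (hg (f x))) ?_
    nlinarith [Nat.zero_le (K * C)]

theorem qi_trans (h : QI R R') (h' : QI R' R'') : QI R R'' := by
  obtain ⟨f, K, C, h1, h2, h3⟩ := h
  obtain ⟨f', K', C', h1', h2', h3'⟩ := h'
  refine ⟨fun x => f' (f x), K * K', K' * C + K * C' + C + 2 * C', fun x y N h => ?_,
    fun x y N h => ?_, fun z => ?_⟩
  · refine sh_mono (h1' _ _ _ (h1 _ _ _ h)) ?_
    nlinarith [Nat.zero_le (K * C')]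
  · refine sh_mono (h2 _ _ _ (h2' _ _ _ h)) ?_
    nlinarith [Nat.zero_le (K' * C)]
  · obtain ⟨y, hy⟩ := h3' z
    obtain ⟨x, hx⟩ := h3 y
    refine ⟨x, ?_⟩
    have h4 := sh_mul (h1' _ _ _ hx) hy
    have e : (f' (f x))⁻¹ * f' y * ((f' y)⁻¹ * z) = (f' (f x))⁻¹ * z := by group
    rw [e] at h4
    refine sh_mono h4 ?_
    nlinarith [Nat.zero_le (K * C')]

theorem qi_of_homs (φ : PresentedGroup R →* PresentedGroup R')
    (ψ : PresentedGroup R' →* PresentedGroup R) (e : V ≃ V')
    (h1 : ∀ s, φ (PresentedGroup.of s) = PresentedGroup.of (e s))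
    (h2 : ∀ s, ψ (PresentedGroup.of s) = PresentedGroup.of (e.symm s)) : QI R R' := by
  have e1 : ψ.comp φ = MonoidHom.id _ := PresentedGroup.ext fun s => by simp [h1, h2]
  have e2 : φ.comp ψ = MonoidHom.id _ := PresentedGroup.ext fun s => by simp [h1, h2]
  refine qi_of_inv φ ψ (fun x => DFunLike.congr_fun e1 x) (fun x => DFunLike.congr_fun e2 x)
    (fun x s => ?_) (fun x s => ?_)
  · rw [map_mul, inv_mul_cancel_left, h1]
    exact sh_of _
  · rw [map_mul, inv_mul_cancel_left, h2]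
    exact sh_of _

end basic

section homs

variable {V : Type} {H : Type} [Group H]

theorem c_sq (Γ : SimpleGraph V) (a : V) :
    (PresentedGroup.of a * PresentedGroup.of a : CG Γ) = 1 := by
  have := PresentedGroup.one_of_mem (rels := cRel Γ) (x := FreeGroup.of a * FreeGroup.of a)
    (Or.inl ⟨a, rfl⟩)
  rwa [map_mul] at this

theorem c_inv (Γ : SimpleGraph V) (a : V) :
    (PresentedGroup.of a : CG Γ)⁻¹ = PresentedGroup.of a :=
  inv_eq_of_mul_eq_one_right (c_sq Γ a)

theorem c_comm (Γ : SimpleGraph V) {a b : V} (h : Γ.Adj a b) :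
    (PresentedGroup.of a * PresentedGroup.of b : CG Γ) =
      PresentedGroup.of b * PresentedGroup.of a := by
  have := PresentedGroup.one_of_mem (rels := cRel Γ) (x := (FreeGroup.of a * FreeGroup.of b) ^ 2)
    (Or.inr ⟨a, b, h, rfl⟩)
  rw [map_pow, map_mul, pow_two] at this
  have h2 : (PresentedGroup.of a * PresentedGroup.of b : CG Γ)⁻¹ =
      PresentedGroup.of a * PresentedGroup.of b := inv_eq_of_mul_eq_one_right this
  rw [← h2, mul_inv_rev, c_inv, c_inv]

theorem a_comm (Λ : SimpleGraph V) {a b : V} (h : Λ.Adj a b) :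
    (PresentedGroup.of a * PresentedGroup.of b : AG Λ) =
      PresentedGroup.of b * PresentedGroup.of a := by
  have := PresentedGroup.one_of_mem (rels := aRel Λ)
    (x := FreeGroup.of a * FreeGroup.of b * (FreeGroup.of a)⁻¹ * (FreeGroup.of b)⁻¹) ⟨a, b, h, rfl⟩
  rw [map_mul, map_mul, map_mul, map_inv, map_inv] at this
  have h2 : (PresentedGroup.of a * PresentedGroup.of b * (PresentedGroup.of a)⁻¹ *
    (PresentedGroup.of b)⁻¹ : AG Λ) = 1 := this
  rw [mul_inv_eq_one, mul_inv_eq_iff_eq_mul] at h2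
  exact h2

theorem exists_cHom (Γ : SimpleGraph V) (f : V → H) (h1 : ∀ a, f a * f a = 1)
    (h2 : ∀ a b, Γ.Adj a b → f a * f b = f b * f a) :
    ∃ φ : CG Γ →* H, ∀ a, φ (PresentedGroup.of a) = f a := by
  refine ⟨PresentedGroup.toGroup (f := f) ?_, fun a => PresentedGroup.toGroup.of _⟩
  rintro r (⟨a, rfl⟩ | ⟨a, b, h, rfl⟩)
  · simp [h1]
  · simp only [map_mul, FreeGroup.lift_apply_of, pow_two]
    calc f a * f b * (f a * f b) = f a * (f b * f a) * f b := by group
      _ = (f a * f a) * (f b * f b) := by rw [← h2 a b h]; group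
      _ = 1 := by rw [h1, h1, one_mul]

theorem exists_aHom (Λ : SimpleGraph V) (f : V → H)
    (h2 : ∀ a b, Λ.Adj a b → f a * f b = f b * f a) :
    ∃ φ : AG Λ →* H, ∀ a, φ (PresentedGroup.of a) = f a := by
  refine ⟨PresentedGroup.toGroup (f := f) ?_, fun a => PresentedGroup.toGroup.of _⟩
  rintro r ⟨a, b, h, rfl⟩
  simp only [map_mul, map_inv, FreeGroup.lift_apply_of]
  rw [h2 a b h]
  group

end homs

section transfer

variable {V V' : Type} [DecidableEq V] [DecidableEq V']

theorem qi_c_comap (G : SimpleGraph V) (e : V' ≃ V) : QI (cRel (G.comap e)) (cRel G) := by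
  obtain ⟨φ, hφ⟩ := exists_cHom (G.comap e) (fun s => (PresentedGroup.of (e s) : CG G))
    (fun a => c_sq G _) (fun a b h => c_comm G h)
  obtain ⟨ψ, hψ⟩ := exists_cHom G (fun s => (PresentedGroup.of (e.symm s) : CG (G.comap e)))
    (fun a => c_sq _ _) (fun a b h => c_comm _ (by simpa using h))
  exact qi_of_homs φ ψ e hφ hψ

theorem qi_a_comap (G : SimpleGraph V) (e : V' ≃ V) : QI (aRel (G.comap e)) (aRel G) := by
  obtain ⟨φ, hφ⟩ := exists_aHom (G.comap e) (fun s => (PresentedGroup.of (e s) : AG G))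
    (fun a b h => a_comm G h)
  obtain ⟨ψ, hψ⟩ := exists_aHom G (fun s => (PresentedGroup.of (e.symm s) : AG (G.comap e)))
    (fun a b h => a_comm _ (by simpa using h))
  exact qi_of_homs φ ψ e hφ hψ

end transfer

section dj

variable {V : Type} [DecidableEq V]

theorem exists_par {H : Type} [Group H] (φ : H →* ℤˣ) : ∃ p : H → Bool,
    p 1 = false ∧ (∀ x y, φ y = 1 → p (x * y) = p x) ∧ ∀ x y, φ y = -1 → p (x * y) = !p x := by
  refine ⟨fun x => decide (φ x = -1), by simp, fun x y h => by simp [h], fun x y h => ?_⟩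
  rcases Int.units_eq_one_or (φ x) with h' | h' <;> simp [h, h']

theorem exists_pa (L : SimpleGraph V) : ∃ p : V → AG L → Bool, (∀ v, p v 1 = false) ∧
    (∀ v x, p v (x * PresentedGroup.of v) = !p v x) ∧
    (∀ v x, p v (x * (PresentedGroup.of v)⁻¹) = !p v x) ∧
    (∀ v u x, u ≠ v → p v (x * PresentedGroup.of u) = p v x) ∧
    (∀ v u x, u ≠ v → p v (x * (PresentedGroup.of u)⁻¹) = p v x) := by
  choose φ hφ using fun v : V => exists_aHom L (fun s => if s = v then (-1 : ℤˣ) else 1)
    (fun a b _ => mul_comm _ _)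
  choose p h1 h2 h3 using fun v => exists_par (φ v)
  refine ⟨p, h1, fun v x => h3 v _ _ (by simp [hφ]), fun v x => h3 v _ _ (by simp [hφ]),
    fun v u x h => h2 v _ _ (by simp [hφ, h]), fun v u x h => h2 v _ _ (by simp [hφ, h])⟩

theorem exists_pw (L : SimpleGraph V) : ∃ p : V → CG (dbl L) → Bool, (∀ v, p v 1 = false) ∧
    (∀ v e x, p v (x * PresentedGroup.of (v, e)) = !p v x) ∧
    (∀ v u e x, u ≠ v → p v (x * PresentedGroup.of (u, e)) = p v x) := by
  choose φ hφ using fun v : V => exists_cHom (dbl L) (fun s => if s.1 = v then (-1 : ℤˣ) else 1)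
    (fun a => by split_ifs <;> simp) (fun a b _ => mul_comm _ _)
  choose p h1 h2 h3 using fun v => exists_par (φ v)
  refine ⟨p, h1, fun v e x => h3 v _ _ (by simp [hφ]),
    fun v u e x h => h2 v _ _ (by simp [hφ, h])⟩

theorem qi_dbl (L : SimpleGraph V) : QI (cRel (dbl L)) (aRel L) := by
  obtain ⟨pa, a0, a1, a2, a3, a4⟩ := exists_pa L
  obtain ⟨pw, w0, w1, w2⟩ := exists_pw L
  -- the action of the Coxeter group on the Artin group
  let τ : V × Bool → AG L → AG L := fun s x =>
    if pa s.1 x = s.2 then x * PresentedGroup.of s.1 else x * (PresentedGroup.of s.1)⁻¹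
  have τinv : ∀ s, Function.Involutive (τ s) := by
    rintro ⟨v, e⟩ x
    by_cases h : pa v x = e
    · have h' : pa v (x * PresentedGroup.of v) ≠ e := by rw [a1, h]; simp
      simp [τ, h, h']
    · have h' : pa v (x * (PresentedGroup.of v)⁻¹) = e := by
        rw [a2]; revert h; cases pa v x <;> cases e <;> simp
      simp [τ, h, h']
  have τcomm : ∀ s t, (dbl L).Adj s t → ∀ x, τ s (τ t x) = τ t (τ s x) := by
    rintro ⟨v, e⟩ ⟨u, e'⟩ h x
    have h0 : L.Adj v u := h
    have hne : v ≠ u := h0.ne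
    have hc : Commute (PresentedGroup.of v : AG L) (PresentedGroup.of u) := a_comm L h0
    by_cases h1 : pa v x = e <;> by_cases h2 : pa u x = e' <;>
      simp only [τ, h1, h2, a3 v u x hne.symm, a3 u v x hne, a4 v u x hne.symm, a4 u v x hne,
        if_true, if_false, mul_assoc]
    · rw [hc.eq]
    · rw [hc.inv_right.eq]
    · rw [hc.inv_left.eq]
    · rw [hc.inv_inv.eq]
  obtain ⟨ρ, hρ⟩ := exists_cHom (dbl L) (fun s => (τinv s).toPerm)
    (fun s => Equiv.ext fun x => τinv s x) (fun s t h => Equiv.ext fun x => τcomm s t h x)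
  let Φ : CG (dbl L) → AG L := fun w => ρ w⁻¹ 1
  have Φ1 : Φ 1 = 1 := by simp only [Φ, inv_one, map_one]; rfl
  have Φs : ∀ w s, Φ (w * PresentedGroup.of s) = τ s (Φ w) := by
    intro w s
    simp only [Φ, mul_inv_rev, c_inv, map_mul, hρ]
    rfl
  -- the action of the Artin group on the Coxeter group
  let σ : V → Equiv.Perm (CG (dbl L)) := fun v =>
    { toFun := fun w => w * PresentedGroup.of (v, !pw v w)
      invFun := fun w => w * PresentedGroup.of (v, pw v w)
      left_inv := fun w => by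
        simp only [w1, mul_assoc, c_sq, mul_one]
      right_inv := fun w => by
        simp only [w1, Bool.not_not, mul_assoc, c_sq, mul_one] }
  have σcomm : ∀ v u, L.Adj v u → σ v * σ u = σ u * σ v := by
    intro v u h
    ext w
    have hne : v ≠ u := h.ne
    change w * PresentedGroup.of (u, !pw u w) *
        PresentedGroup.of (v, !pw v (w * PresentedGroup.of (u, !pw u w))) =
      w * PresentedGroup.of (v, !pw v w) *
        PresentedGroup.of (u, !pw u (w * PresentedGroup.of (v, !pw v w)))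
    rw [w2 v u _ _ hne.symm, w2 u v _ _ hne, mul_assoc, mul_assoc,
      c_comm (dbl L) (a := (v, !pw v w)) (b := (u, !pw u w)) h]
  obtain ⟨ρ', hρ'⟩ := exists_aHom L σ σcomm
  let Ψ : AG L → CG (dbl L) := fun x => ρ' x⁻¹ 1
  have Ψ1 : Ψ 1 = 1 := by simp only [Ψ, inv_one, map_one]; rfl
  have Ψs : ∀ x v, Ψ (x * PresentedGroup.of v) = Ψ x * PresentedGroup.of (v, pw v (Ψ x)) := by
    intro x v
    simp only [Ψ, mul_inv_rev, map_mul, map_inv, hρ']
    rfl
  have Ψi : ∀ x v, Ψ (x * (PresentedGroup.of v)⁻¹) =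
      Ψ x * PresentedGroup.of (v, !pw v (Ψ x)) := by
    intro x v
    simp only [Ψ, mul_inv_rev, inv_inv, map_mul, hρ']
    rfl
  have τp : ∀ v e x u, pa u (τ (v, e) x) = if v = u then !pa u x else pa u x := by
    intro v e x u
    by_cases h : v = u
    · subst h
      by_cases h1 : pa v x = e <;> simp [τ, h1, a1, a2]
    · by_cases h1 : pa v x = e <;> simp [τ, h1, h, a3 u v x h, a4 u v x h]
  have wp : ∀ v e w u, pw u (w * PresentedGroup.of (v, e)) =
      if v = u then !pw u w else pw u w := by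
    intro v e w u
    by_cases h : v = u
    · subst h
      simp [w1]
    · simp [h, w2 u v e w h]
  have step1 : ∀ w s, ((∀ u, pa u (Φ w) = pw u w) ∧ Ψ (Φ w) = w) →
      ((∀ u, pa u (Φ (w * PresentedGroup.of s)) = pw u (w * PresentedGroup.of s)) ∧
        Ψ (Φ (w * PresentedGroup.of s)) = w * PresentedGroup.of s) := by
    rintro w ⟨v, e⟩ ⟨h1, h2⟩
    refine ⟨fun u => by rw [Φs, τp, wp, h1], ?_⟩
    rw [Φs]
    by_cases h : pa v (Φ w) = e
    · simp only [τ, h, if_true]
      rw [Ψs, h2, ← h1, h]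
    · simp only [τ, h, if_false]
      have : (!pa v (Φ w)) = e := by revert h; cases pa v (Φ w) <;> cases e <;> simp
      rw [Ψi, h2, ← h1, this]
  have H1 : ∀ w, (∀ u, pa u (Φ w) = pw u w) ∧ Ψ (Φ w) = w := by
    intro w
    refine ind_right (fun w => (∀ u, pa u (Φ w) = pw u w) ∧ Ψ (Φ w) = w) ?_ step1 ?_ w
    · exact ⟨fun u => by rw [Φ1, a0, w0], by rw [Φ1, Ψ1]⟩
    · intro x s hx
      rw [c_inv]
      exact step1 x s hx
  have H2 : ∀ x, (∀ u, pw u (Ψ x) = pa u x) ∧ Φ (Ψ x) = x := by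
    intro x
    refine ind_right (fun x => (∀ u, pw u (Ψ x) = pa u x) ∧ Φ (Ψ x) = x) ?_ ?_ ?_ x
    · exact ⟨fun u => by rw [Ψ1, a0, w0], by rw [Ψ1, Φ1]⟩
    · rintro x v ⟨h1, h2⟩
      refine ⟨fun u => ?_, ?_⟩
      · rw [Ψs, wp, h1]
        by_cases h : v = u
        · subst h
          simp [a1]
        · simp [h, a3 u v x h]
      · rw [Ψs, Φs, h2, h1]
        simp [τ]
    · rintro x v ⟨h1, h2⟩
      refine ⟨fun u => ?_, ?_⟩
      · rw [Ψi, wp, h1]
        by_cases h : v = u
        · subst h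
          simp [a2]
        · simp [h, a4 u v x h]
      · rw [Ψi, Φs, h2, h1]
        simp [τ]
  refine qi_of_inv Φ Ψ (fun w => (H1 w).2) (fun x => (H2 x).2) (fun w s => ?_) (fun x v => ?_)
  · rw [Φs]
    by_cases h : pa s.1 (Φ w) = s.2
    · simp only [τ, h, if_true, inv_mul_cancel_left]
      exact sh_of _
    · simp only [τ, h, if_false, inv_mul_cancel_left]
      exact sh_inv (sh_of _)
  · rw [Ψs, inv_mul_cancel_left]
    exact sh_of _

end dj

end DJ

theorem dj_thm : DJStmt := fun h =>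
  DJ.qi_trans (DJ.qi_c_comap GW _) (DJ.qi_trans (DJ.qi_symm h)
    (DJ.qi_trans (DJ.qi_dbl GA) (DJ.qi_symm (DJ.qi_a_comap GA _))))

end Pool.Agent.H728Z.RC
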